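import Pool.Agent.N436.DF.Stm3
import Pool.Agent.N403.DF.Low
import Pool.Agent.N878.DF.Addm
import Pool.Agent.N2.DF.Tr

/-!
# Project DF, third batch: the kill argument with one prepaid pair unit
-/

namespace Pool.Agent.N680.DF

open Finset Pool.Agent.N436.DF

section lemmas

variable {V : Type}

/-- the demand of the coloured set `X` -/
def dem (H : Hub V) (X : Finset V) (f : V → Bool) (s : V → V → ℤ) (i : Bool) (z : V) : ℤ :=
  ∑ x ∈ X, if f x = i then (if H.r x z ≤ s x z then H.r x z else (if i = true then 2 else 4))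
    else max 0 (H.m x z - s x z)

lemma r_nn {P : Par} {H : Hub V} (ok : Ok P H) (x z : V) : 0 ≤ H.r x z := by
  rcases ok.r01 x z with h | h
  · rw [h]
  · rw [h]
    norm_num

lemma term_nn {P : Par} {H : Hub V} (ok : Ok P H) (f : V → Bool) (s : V → V → ℤ) (i : Bool) (x z : V) :
    0 ≤ (if f x = i then (if H.r x z ≤ s x z then H.r x z else (if i = true then (2 : ℤ) else 4))
      else max 0 (H.m x z - s x z)) := by
  have := r_nn ok x z
  split_ifs
  · assumption
  · norm_num
  · norm_num
  · exact le_max_left _ _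

lemma dem_nn {P : Par} {H : Hub V} (ok : Ok P H) (X : Finset V) (f : V → Bool) (s : V → V → ℤ) (i : Bool)
    (z : V) : 0 ≤ dem H X f s i z :=
  sum_nonneg fun x _ => term_nn ok f s i x z

lemma dem_ge {P : Par} {H : Hub V} (ok : Ok P H) (X : Finset V) (f : V → Bool) (s : V → V → ℤ) (i : Bool)
    (x z : V) (hx : x ∈ X) (hf : f x = i) (h : ¬ H.r x z ≤ s x z) :
    (if i = true then (2 : ℤ) else 4) ≤ dem H X f s i z := by
  have h1 := single_le_sum (f := fun x => if f x = i then (if H.r x z ≤ s x z then H.r x z else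
    (if i = true then (2 : ℤ) else 4)) else max 0 (H.m x z - s x z))
    (fun x _ => term_nn ok f s i x z) hx
  simp only [if_pos hf, if_neg h] at h1
  exact h1

lemma term_le {P : Par} {H : Hub V} (ok : Ok P H) (f : V → Bool) (s : V → V → ℤ) (hs : ∀ x z, 0 ≤ s x z)
    (x z : V) :
    5 * (if f x = true then (if H.r x z ≤ s x z then H.r x z else (if true = true then (2 : ℤ) else 4))
      else max 0 (H.m x z - s x z)) +
    3 * (if f x = false then (if H.r x z ≤ s x z then H.r x z else (if false = true then (2 : ℤ) else 4))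
      else max 0 (H.m x z - s x z)) + sv H f s x z ≤ 12 * H.r x z + 5 * H.m x z := by
  have h1 := ok.r01 x z
  have h2 := ok.m_nn x z
  have h3 := hs x z
  unfold sv
  rcases hf : f x with _ | _
  · simp only [reduceIte, Bool.false_eq_true]
    split_ifs <;> omega
  · simp only [reduceIte, Bool.true_eq_false]
    split_ifs <;> omega

lemma cost_le {P : Par} {H : Hub V} (ok : Ok P H) (X C : Finset V) (f : V → Bool) (s : V → V → ℤ)
    (hs : ∀ x z, 0 ≤ s x z) :
    cost (dem H X f s) C + ∑ x ∈ X, ∑ z ∈ C, sv H f s x z ≤ 12 * rr H X C + 5 * mm H X C := by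
  have h1 : cost (dem H X f s) C = ∑ x ∈ X, ∑ z ∈ C,
      (5 * (if f x = true then (if H.r x z ≤ s x z then H.r x z else (if true = true then (2 : ℤ) else 4))
        else max 0 (H.m x z - s x z)) +
      3 * (if f x = false then (if H.r x z ≤ s x z then H.r x z else (if false = true then (2 : ℤ) else 4))
        else max 0 (H.m x z - s x z))) := by
    unfold cost dem
    rw [sum_comm]
    refine sum_congr rfl fun z _ => ?_
    rw [mul_sum, mul_sum, ← sum_add_distrib]
  have h2 : 12 * rr H X C + 5 * mm H X C = ∑ x ∈ X, ∑ z ∈ C, (12 * H.r x z + 5 * H.m x z) := by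
    unfold rr mm
    simp only [mul_sum, ← sum_add_distrib]
  rw [h1, h2]
  simp only [← sum_add_distrib]
  exact sum_le_sum fun x _ => sum_le_sum fun z _ => term_le ok f s hs x z

end lemmas

variable {V : Type} [DecidableEq V]

/-- a colouring of the rest with the demands reserved gives a colouring -/
lemma col_of (hr : S3_res) (hg : S3_glue) (H : Hub V) (S X : Finset V) (f g : V → Bool)
    (p q s : V → V → ℤ) (ok : Ok P13 H) (hX : X ⊆ S) (hcol : ColBy H X f p) (hs : ∀ x z, 0 ≤ s x z)
    (hcap : ∀ x ∈ X, load H X f p x + ∑ z ∈ S \ X, s x z ≤ H.c (f x) x)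
    (hq : ColBy (res H (dem H X f s)) (S \ X) g q) : Col H S := by
  obtain ⟨h1, h2⟩ := (hr V H (dem H X f s) ok (fun i x => dem_nn ok X f s i x)).2.2 (S \ X) g q hq
  have hserved : ∀ x ∈ X, ∀ z ∈ S \ X, f x = g z → H.r x z ≤ s x z := by
    intro x hx z hz hfg
    by_contra hcon
    have h3 := dem_ge ok X f s (g z) x z hx hfg hcon
    obtain ⟨h4, h5⟩ := h2 z hz
    rcases hgz : g z with _ | _
    · rw [hgz] at h3 h4
      have := ok.c2_le z
      simp only [Bool.false_eq_true, reduceIte] at h3
      change H.c false z ≤ 3 at this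
      omega
    · rw [hgz] at h3 h4
      have := ok.c1_le z
      simp only [reduceIte] at h3
      change H.c true z ≤ 1 at this
      omega
  obtain ⟨F, P', hF, -⟩ := hg V H S X f g p q s
    (fun z x => if g z = f x then H.r x z else max 0 (H.m x z - s x z)) ok hX hcol h1 hs
    (fun z x => by
      have := r_nn ok x z
      split_ifs
      · exact this
      · exact le_max_left _ _)
    (fun x hx z hz hfg => ⟨hserved x hx z hz hfg, by
      show H.r x z ≤ if g z = f x then H.r x z else max 0 (H.m x z - s x z)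
      rw [if_pos hfg.symm]⟩)
    (fun x hx z hz hfg => by
      show H.m x z ≤ s x z + if g z = f x then H.r x z else max 0 (H.m x z - s x z)
      rw [if_neg (Ne.symm hfg)]
      have := le_max_right 0 (H.m x z - s x z)
      omega)
    hcap
    (fun z hz => by
      have h3 : ∑ x ∈ X, (if g z = f x then H.r x z else max 0 (H.m x z - s x z)) ≤
          dem H X f s (g z) z := by
        unfold dem
        refine sum_le_sum fun x hx => ?_
        by_cases hfg : f x = g z
        · rw [if_pos hfg.symm, if_pos hfg, if_pos (hserved x hx z hz hfg)]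
        · rw [if_neg (Ne.symm hfg), if_neg hfg]
      have h4 := (h2 z hz).1
      exact le_trans (by linarith) h4)
  exact ⟨F, P', hF⟩

lemma load_nn {P : Par} {H : Hub V} (ok : Ok P H) (S : Finset V) (f : V → Bool) (p : V → V → ℤ)
    (hp : ∀ u v, 0 ≤ p u v) (u : V) : 0 ≤ load H S f p u := by
  unfold load
  refine sum_nonneg fun v _ => ?_
  split_ifs
  · exact r_nn ok u v
  · exact hp u v

lemma eE_le {P : Par} {H : Hub V} (ok : Ok P H) {S B : Finset V} (h : B ⊆ S) : eE H B ≤ eE H S := by
  unfold eE
  refine (sum_le_sum fun u _ => sum_le_sum_of_subset_of_nonneg h fun v _ _ => r_nn ok u v).trans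
    (sum_le_sum_of_subset_of_nonneg h fun u _ _ => sum_nonneg fun v _ => r_nn ok u v)

/-- **The kill argument with a prepaid pair unit.** -/
theorem killP3 (hb : S3_base) (hr : S3_res) (hg : S3_glue) : S3_killP := by
  intro V _ H S X f p s v w y hMC hX hcol hs hcap hv hw hvw hfv hsvw hy hyw hm
  have ok := hMC.ok
  obtain ⟨hK, hKp, -⟩ := hr V H (dem H X f s) ok (fun i x => dem_nn ok X f s i x)
  obtain ⟨hL, hLr, -⟩ := Pool.Agent.N403.DF.low_ok V P13 (res H (dem H X f s)) false w hK
  have hmK : 0 ≤ (low (res H (dem H X f s)) false w).m w y + (-1) := by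
    change 0 ≤ H.m w y + (-1)
    omega
  obtain ⟨hK', hK'r, -⟩ := Pool.Agent.N878.DF.addm_ok V P13 (low (res H (dem H X f s)) false w) (-1) w y hL
    (Ne.symm hyw) hmK
  have hcard : (S \ X).card < S.card := by
    refine card_lt_card ⟨sdiff_subset, fun h => ?_⟩
    exact (mem_sdiff.1 (h (hX hv))).2 hv
  have hE : eE (addm (low (res H (dem H X f s)) false w) (-1) w y) (S \ X) ≤ eE H S :=
    eE_le (P := P13) ok sdiff_subset
  have hdem : 2 ≤ dem H X f s true w := by
    have := dem_ge ok X f s true v w hv hfv (by rw [hvw, hsvw]; norm_num)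
    simpa using this
  have hnot : ¬ Hyp P13 (addm (low (res H (dem H X f s)) false w) (-1) w y) (S \ X) := by
    intro hH
    obtain ⟨g, q, hgq⟩ := hMC.ih2 _ _ hK' hH hE hcard
    have hgw : g w = false := by
      by_contra hcon
      have hgt : g w = true := by
        rcases h : g w with _ | _
        · exact absurd h hcon
        · rfl
      have h1 := hgq.cap w hw
      have h2 := load_nn hK' (S \ X) g q hgq.nn w
      rw [hgt] at h1
      have h3 : (addm (low (res H (dem H X f s)) false w) (-1) w y).c true w =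
          max (-1) (H.c true w - dem H X f s true w) := by
        simp [addm, low, res]
      rw [h3] at h1
      have h4 := ok.c1_le w
      change H.c true w ≤ 1 at h4
      have h5 : max (-1) (H.c true w - dem H X f s true w) = -1 := max_eq_left (by omega)
      rw [h5] at h1
      omega
    obtain ⟨q', hq'⟩ := Pool.Agent.N2.DF.trPair V P13 (res H (dem H X f s)) (S \ X) false w y g q hK hw hy
      (Ne.symm hyw) hgw hgq
    exact hMC.ncol (col_of hr hg H S X f g p q' s ok hX hcol hs hcap hq')
  unfold Hyp at hnot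
  push Not at hnot
  obtain ⟨C, hCB, hCne, hC⟩ := hnot
  refine ⟨C, hCB, hCne, ?_⟩
  have hdisj : Disjoint X C := by
    rw [Finset.disjoint_left]
    intro x hx hxC
    exact (mem_sdiff.1 (hCB hxC)).2 hx
  have h1 := hK'r C
  have h2 := hLr C
  have h3 := (hb V (res H (dem H X f s)) hK).1 C
  have h4 := hKp C
  have h5 := (hb V H ok).2.1 X C hdisj
  have h6 := cost_le ok X C f s hs
  change _ ≤ -(2 * (3 : ℤ)) at hC
  change rho P13 _ C - (if w ∈ C then 2 * (3 : ℤ) else 0) ≤ _ at h2
  change _ = rho P13 _ C - (if w ∈ C ∧ y ∈ C then 2 * (5 : ℤ) * (-1) else 0) at h1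
  by_cases hwC : w ∈ C
  · by_cases hyC : y ∈ C
    · rw [if_pos ⟨hwC, hyC⟩] at h1
      rw [if_pos hwC] at h2
      rw [if_pos hwC, if_pos hyC]
      linarith
    · rw [if_neg (fun h => hyC h.2)] at h1
      rw [if_pos hwC] at h2
      rw [if_pos hwC, if_neg hyC]
      linarith
  · rw [if_neg (fun h => hwC h.1)] at h1
    rw [if_neg hwC] at h2
    rw [if_neg hwC]
    linarith

end Pool.Agent.N680.DF
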